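import Pool.Agent.FCU.Final

set_option autoImplicit false

namespace Pool.Agent.Results.MP_b2231e_al.CentralDerived

universe u

/-- The class `SD𝔉`: the group `D` is isomorphic to a subgroup of a restricted direct product of
finite groups, that is, there is an injective homomorphism from `D` to a product of finite groups
such that every element of `D` has only finitely many coordinates different from `1`. -/
def InSDF (D : Type u) [Group D] : Prop :=
  ∃ (ι : Type u) (F : ι → Type u) (_ : ∀ i, Group (F i)) (_ : ∀ i, Finite (F i))
    (f : D →* ((i : ι) → F i)), Function.Injective f ∧ ∀ x, {i : ι | f x i ≠ 1}.Finite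

/-- `G` is an FC-group: every element has only finitely many conjugates. -/
def IsFCGroup (G : Type u) [Group G] : Prop := ∀ g : G, {h : G | IsConj g h}.Finite

/-- Let `G` be an FC-group. If `G' ∩ Z(G)` is in `SD𝔉`, then `G / Z(G)` is in `SD𝔉`; hence if `G'`
is in `SD𝔉`, then `G / Z(G)` is in `SD𝔉`. -/
theorem result (G : Type u) [Group G] (hG : IsFCGroup G) :
    (InSDF ↥(commutator G ⊓ Subgroup.center G) → InSDF (G ⧸ Subgroup.center G)) ∧
    (InSDF ↥(commutator G) → InSDF (G ⧸ Subgroup.center G)) := by
  have h1 : Pool.Agent.FCU.IsFC G := by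
    intro g
    refine (hG g).subset ?_
    rintro _ ⟨k, rfl⟩
    exact isConj_iff.mpr ⟨k, rfl⟩
  refine ⟨fun h => Pool.Agent.FCU.sdf_central_quotient h1 h, fun h => ?_⟩
  refine Pool.Agent.FCU.sdf_central_quotient h1 ?_
  refine Pool.Agent.FCU.SDF.of_injective (E := ↥(commutator G)) h
    (Subgroup.inclusion inf_le_left) (Subgroup.inclusion_injective _)

end Pool.Agent.Results.MP_b2231e_al.CentralDerived
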